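import Pool.Agent.UBC.Final
import Pool.Agent.UBC.AlgFinal
import Pool.Agent.UBC.DC2
import Pool.Agent.UBC.Count
import Pool.Agent.UBC.TopFinal

set_option autoImplicit false

namespace Pool.Agent.Results.MP_8294f4_co.UpperBound

open Pool.Agent.UBC Finset

/-- `h` is the h-vector of `Δ` with respect to `d`:
`∑_{i ≤ d} h_i x^(d-i) = ∑_{i ≤ d} f_(i-1) (x-1)^(d-i)`; here `f_(i-1) = Δ.fnum i` is the number of
faces with `i` vertices. -/
def IsHVector {V : Type} [DecidableEq V] (Δ : Cplx V) (d : ℕ) (h : ℕ → ℤ) : Prop :=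
  ∑ i ∈ range (d + 1), Polynomial.C (h i) * Polynomial.X ^ (d - i) =
    ∑ i ∈ range (d + 1), Polynomial.C (Δ.fnum i : ℤ) * (Polynomial.X - 1) ^ (d - i)

/-- The upper bound condition: with `n` the number of vertices and `d` the largest number of
vertices of a face, the h-vector `h` satisfies `h_i ≤ C(n - d + i - 1, i)` for all `i ≤ d`. -/
def UBC {V : Type} [DecidableEq V] (Δ : Cplx V) : Prop :=
  ∀ d : ℕ, (∃ σ ∈ Δ.faces, σ.card = d) → (∀ σ ∈ Δ.faces, σ.card ≤ d) →
    ∃ h : ℕ → ℤ, IsHVector Δ d h ∧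
      ∀ i ≤ d, h i ≤ (((Δ.fnum 1 - d + i - 1).choose i : ℕ) : ℤ)

/-- `X ⊆ ℝ^n` (subspace topology) is a topological manifold of dimension `m`, with or without
boundary: every point of `X` has an open neighbourhood in `X` that is homeomorphic to an open
subset of `ℝ^m`, or (only if `m ≥ 1`) to an open subset of the closed half space
`{q ∈ ℝ^m : 0 ≤ q_0}`. -/
def IsManifold {n : ℕ} (X : Set (Fin n → ℝ)) (m : ℕ) : Prop :=
  ∀ x : X, (∃ e : OpenPartialHomeomorph X (EuclideanSpace ℝ (Fin m)), x ∈ e.source) ∨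
    ∃ (hm : 0 < m) (e : OpenPartialHomeomorph X
      {q : EuclideanSpace ℝ (Fin m) | 0 ≤ q ⟨0, hm⟩}), x ∈ e.source

/-! ### the defining identity of the h-vector -/

theorem isHVector_hnum {V : Type} [DecidableEq V] (Δ : Cplx V) (d : ℕ) :
    IsHVector Δ d (fun i => Δ.hnum d i) := by
  unfold IsHVector
  ext m
  rw [Polynomial.finsetSum_coeff, Polynomial.finsetSum_coeff]
  have hX : ∀ e : ℕ, ((Polynomial.X - 1 : Polynomial ℤ) ^ e).coeff m =
      (-1 : ℤ) ^ (e - m) * (e.choose m : ℤ) := by
    intro e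
    have h1 : (Polynomial.X - 1 : Polynomial ℤ) = Polynomial.X + Polynomial.C (-1) := by
      simp [sub_eq_add_neg]
    rw [h1, Polynomial.coeff_X_add_C_pow]
  rcases le_or_gt m d with hm | hm
  · rw [Finset.sum_eq_single (d - m)]
    · rw [Polynomial.coeff_C_mul, Polynomial.coeff_X_pow, if_pos (by omega), mul_one]
      unfold Cplx.hnum
      have hsub : range (d - m + 1) ⊆ range (d + 1) := by
        intro x hx
        rw [mem_range] at hx ⊢
        omega
      rw [← Finset.sum_subset hsub]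
      · refine Finset.sum_congr rfl fun j hj => ?_
        rw [mem_range] at hj
        rw [Polynomial.coeff_C_mul, hX]
        have e1 : d - m - j = d - j - m := by omega
        have e2 : (d - j).choose (d - m - j) = (d - j).choose m := by
          rw [← Nat.choose_symm (by omega : m ≤ d - j)]
          congr 1
        rw [e2, e1]
        ring
      · intro j hj hj'
        rw [mem_range] at hj hj'
        rw [Polynomial.coeff_C_mul, hX, Nat.choose_eq_zero_of_lt (by omega)]
        simp
    · intro b hb hne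
      rw [mem_range] at hb
      rw [Polynomial.coeff_C_mul, Polynomial.coeff_X_pow, if_neg (by omega), mul_zero]
    · intro h
      exact absurd (mem_range.mpr (by omega)) h
  · rw [Finset.sum_eq_zero, Finset.sum_eq_zero]
    · intro j hj
      rw [Polynomial.coeff_C_mul, hX, Nat.choose_eq_zero_of_lt (by omega)]
      simp
    · intro j hj
      rw [Polynomial.coeff_C_mul, Polynomial.coeff_X_pow, if_neg (by omega), mul_zero]

/-! ### change of the field -/

theorem exactAt_baseChange (k K : Type) [Field k] [Field K] [Algebra k K] {V : Type}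
    [DecidableEq V] (Δ : Cplx V) (i : ℕ) (h : Δ.ExactAt k i) : Δ.ExactAt K i := by
  classical
  intro c hc
  let B := Module.Basis.ofVectorSpace k K
  have hbd : ∀ (c' : Finset V → K) (t : Finset V) (j : _),
      B.repr (Δ.bd c' t) j = Δ.bd (fun s => B.repr (c' s) j) t := by
    intro c' t j
    unfold Cplx.bd
    rw [map_sum, Finsupp.finsetSum_apply]
  have hj : ∀ j, ∃ b : Finset V → k, ∀ t ∈ Δ.faces, t.card = i →
      Δ.bd b t = B.repr (c t) j := by
    intro j
    refine h (fun s => B.repr (c s) j) ?_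
    intro t ht hti
    rw [← hbd, hc t ht hti]
    simp
  choose b hb using hj
  let J := Δ.faces.biUnion fun s => (B.repr (c s)).support
  refine ⟨fun s => ∑ j ∈ J, b j s • B j, fun t ht hti => ?_⟩
  have h1 : Δ.bd (fun s => ∑ j ∈ J, b j s • B j) t = ∑ j ∈ J, (Δ.bd (b j) t) • B j := by
    unfold Cplx.bd
    rw [Finset.sum_comm]
    refine Finset.sum_congr rfl fun j _ => ?_
    rw [Finset.sum_smul]
  rw [h1]
  have h2 : ∀ j ∈ J, (Δ.bd (b j) t) • B j = (B.repr (c t) j) • B j := by
    intro j _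
    rw [hb j t ht hti]
  rw [Finset.sum_congr rfl h2]
  have h3 : (B.repr (c t)).support ⊆ J :=
    Finset.subset_biUnion_of_mem (fun s => (B.repr (c s)).support) ht
  have h4 := B.linearCombination_repr (c t)
  rw [Finsupp.linearCombination_apply, Finsupp.sum] at h4
  rw [← Finset.sum_subset h3]
  · exact h4
  · intro j _ hj
    rw [Finsupp.notMem_support_iff.mp hj, zero_smul]

theorem isBuchsbaum_baseChange (k K : Type) [Field k] [Field K] [Algebra k K] {V : Type}
    [DecidableEq V] (Δ : Cplx V) (d : ℕ) (h : Δ.IsBuchsbaum k d) : Δ.IsBuchsbaum K d :=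
  ⟨h.1, fun σ hσ hne i hi => exactAt_baseChange k K _ i (h.2 σ hσ hne i hi)⟩

/-! ### the two parts -/

theorem ubc_of_buchsbaum (k : Type) [Field k] [CharP k 2] {V : Type} [DecidableEq V]
    (Δ : Cplx V) (d : ℕ) (hB : Δ.IsBuchsbaum k d) : UBC Δ := by
  intro d' ⟨σ, hσ, hσd⟩ hmax
  have hA : TargetA := targetA_of_dc2 (fun k _ _ => targetDC2_of_count k hnum_eq_alt)
  obtain ⟨h1, t, ht, -, htd⟩ := hB.1 σ hσ
  have hd : d' = d := le_antisymm (hσd ▸ h1) (htd ▸ hmax t ht)
  subst hd
  have : CharP (AlgebraicClosure k) 2 := charP_of_injective_algebraMap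
    (algebraMap k (AlgebraicClosure k)).injective 2
  exact ⟨_, isHVector_hnum Δ d', fun i hi => hA (AlgebraicClosure k) V Δ d'
    (isBuchsbaum_baseChange k (AlgebraicClosure k) Δ d' hB) i hi⟩

theorem locMan_of_isManifold {n : ℕ} {X : Set (Fin n → ℝ)} {m : ℕ} (h : IsManifold X m) :
    ∀ x ∈ X, LocMan X x m := by
  intro x hx
  rcases h ⟨x, hx⟩ with ⟨e, he⟩ | ⟨hm, e, he⟩
  · left
    exact ⟨_, LH.of_chart e ⟨x, hx⟩ he⟩
  · have h1 := LH.of_openPartialHomeomorph e ⟨x, hx⟩ he
    set q : EuclideanSpace ℝ (Fin m) := (e ⟨x, hx⟩ : EuclideanSpace ℝ (Fin m)) with hq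
    have hq0 : 0 ≤ q ⟨0, hm⟩ := (e ⟨x, hx⟩).2
    rcases eq_or_lt_of_le hq0 with h2 | h2
    · right
      exact ⟨hm, q, h2.symm, h1⟩
    · left
      refine ⟨q, h1.trans (LH.of_nhds hq0 (Set.subset_univ _) ?_)⟩
      rw [nhdsWithin_univ]
      have h3 : IsOpen {q : EuclideanSpace ℝ (Fin m) | 0 < q ⟨0, hm⟩} :=
        isOpen_lt continuous_const (by fun_prop)
      exact Filter.mem_of_superset (h3.mem_nhds h2)
        (fun y hy => show 0 ≤ y ⟨0, hm⟩ from le_of_lt hy)

theorem ubc_of_isManifold {n : ℕ} (Δ : Cplx (Fin n)) (m : ℕ) (h : IsManifold (real Δ) m) :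
    UBC Δ := by
  by_cases hne : ∃ s ∈ Δ.faces, s.Nonempty
  · exact ubc_of_buchsbaum (ZMod 2) Δ (m + 1)
      (targetMan (ZMod 2) n m Δ (locMan_of_isManifold h) hne)
  · push Not at hne
    intro d ⟨σ, hσ, hσd⟩ _
    have hσe : σ = ∅ := not_nonempty_iff_eq_empty.mp (by simpa using hne σ hσ)
    subst hσe
    rw [card_empty] at hσd
    subst hσd
    refine ⟨_, isHVector_hnum Δ 0, fun i hi => ?_⟩
    have hi0 : i = 0 := by omega
    subst hi0
    have h1 : Δ.fnum 0 = 1 := by
      unfold Cplx.fnum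
      have : Δ.faces.filter (fun s => s.card = 0) = {∅} := by
        ext s
        simp only [mem_filter, card_eq_zero, mem_singleton]
        constructor
        · rintro ⟨_, h⟩; exact h
        · rintro rfl; exact ⟨Δ.empty_mem, rfl⟩
      rw [this, card_singleton]
    simp [Cplx.hnum, h1]

/-- Every finite simplicial complex whose geometric realization is a topological manifold, with or
without boundary, satisfies the upper bound condition; more generally every Buchsbaum complex over
a field of characteristic 2 does. -/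
theorem result :
    (∀ (n : ℕ) (Δ : Cplx (Fin n)) (m : ℕ), IsManifold (real Δ) m → UBC Δ) ∧
    (∀ (k : Type) [Field k] [CharP k 2] (V : Type) [DecidableEq V] (Δ : Cplx V) (d : ℕ),
      Δ.IsBuchsbaum k d → UBC Δ) :=
  ⟨fun _ Δ m h => ubc_of_isManifold Δ m h,
    fun k _ _ _ _ Δ d h => ubc_of_buchsbaum k Δ d h⟩

end Pool.Agent.Results.MP_8294f4_co.UpperBound
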